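import Mathlib
import Pool.Agent.Results.MP_1af0ac_pr.InfiniteDim

set_option autoImplicit false
set_option linter.unusedSectionVars false

/-!
# Harmonic functions of growth close to quadratic: the graph

The construction of the starting file `InfiniteDim` with the base `2` replaced by an arbitrary
`s ≥ 2` and `8` replaced by `4 s`.
-/

open MeasureTheory
open scoped ENNReal

namespace Pool.Agent.Y423.HD

open Pool.Agent.Results.MP_1af0ac_pr.InfiniteDim (WGraph StationaryRandomGraph)

variable {s : ℕ} [hs : Fact (2 ≤ s)]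

lemma s_two (s : ℕ) [hs : Fact (2 ≤ s)] : 2 ≤ s := hs.out

lemma spos (j : ℕ) : 0 < s ^ j := Nat.pow_pos (by have := s_two s; omega)

lemma lt_spow (j : ℕ) : j < s ^ j := Nat.lt_pow_self (by have := s_two s; omega)

lemma spow_inj {i j : ℕ} (h : s ^ i = s ^ j) : i = j :=
  Nat.pow_right_injective (s_two s) h

lemma spow_le {i j : ℕ} (h : i ≤ j) : s ^ i ≤ s ^ j :=
  Nat.pow_le_pow_right (by have := s_two s; omega) h

instance : NeZero (4 * s) := ⟨by have := s_two s; omega⟩

/-! ### The graph -/

/-- vertices: a height and a lamp configuration -/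
def Vert (s : ℕ) : Type := {p : ℕ × (ℕ → ℕ) //
  (∀ j, p.2 j < 4 * s) ∧ (∀ j, s ^ j ≤ p.1 → p.2 j < 2) ∧ {j | p.2 j ≠ 0}.Finite}

def ht (v : Vert s) : ℕ := v.1.1
def lp (v : Vert s) : ℕ → ℕ := v.1.2

lemma lp_lt (v : Vert s) (j : ℕ) : lp v j < 4 * s := v.2.1 j
lemma lp_lt_two (v : Vert s) (j : ℕ) (h : s ^ j ≤ ht v) : lp v j < 2 := v.2.2.1 j h
lemma lp_fin (v : Vert s) : {j | lp v j ≠ 0}.Finite := v.2.2.2

lemma Vert.ext' {u v : Vert s} (h1 : ht u = ht v) (h2 : ∀ j, lp u j = lp v j) : u = v := by
  apply Subtype.ext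
  apply Prod.ext h1
  exact funext h2

/-- `u` is one step above `v` -/
def Up (v u : Vert s) : Prop := ht u = ht v + 1 ∧ ∀ j, s ^ j ≠ ht v + 1 → lp u j = lp v j

def gr : SimpleGraph (Vert s) where
  Adj v u := Up v u ∨ Up u v
  symm := ⟨fun _ _ h => h.symm⟩
  loopless := ⟨fun v h => by rcases h with h | h <;> (have := h.1; omega)⟩

/-- the base configuration at height `x` -/
def base (x : ℕ) : Vert s :=
  ⟨(x, fun _ => 0), fun _ => by have := s_two s; dsimp only; omega, by simp, by simp⟩

@[simp] lemma ht_base (x : ℕ) : ht (base x : Vert s) = x := rfl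
@[simp] lemma lp_base (x j : ℕ) : lp (base x : Vert s) j = 0 := rfl

/-- step up, putting the crossed lamp (if any) in state `a` -/
def upV (v : Vert s) (a : Fin 2) : Vert s :=
  ⟨(ht v + 1, fun j => if s ^ j = ht v + 1 then a else lp v j), by
    refine ⟨fun j => ?_, fun j hj => ?_, ?_⟩
    · dsimp only
      split_ifs
      · have := a.2; have := s_two s; omega
      · exact lp_lt v j
    · dsimp only at hj ⊢
      split_ifs with h
      · exact a.2
      · exact lp_lt_two v j (by omega)
    · apply ((lp_fin v).union (Set.finite_le_nat (ht v + 1))).subset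
      intro j hj
      simp only [Set.mem_ofPred_eq] at hj
      by_cases h : s ^ j = ht v + 1
      · right
        have : j < s ^ j := lt_spow j
        simp only [Set.mem_ofPred_eq]; omega
      · left; simpa [h] using hj⟩

@[simp] lemma ht_upV (v : Vert s) (a : Fin 2) : ht (upV v a) = ht v + 1 := rfl
lemma lp_upV (v : Vert s) (a : Fin 2) (j : ℕ) :
    lp (upV v a) j = if s ^ j = ht v + 1 then (a : ℕ) else lp v j := rfl

/-- step down (from positive height), putting the crossed lamp (if any) in state `a` -/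
def downV (v : Vert s) (a : Fin (4 * s)) : Vert s :=
  ⟨(ht v - 1, fun j => if s ^ j = ht v then a else lp v j), by
    refine ⟨fun j => ?_, fun j hj => ?_, ?_⟩
    · dsimp only
      split_ifs
      · exact a.2
      · exact lp_lt v j
    · dsimp only at hj ⊢
      have h2 : 0 < s ^ j := spos j
      rw [if_neg (by omega)]
      exact lp_lt_two v j (by omega)
    · apply ((lp_fin v).union (Set.finite_le_nat (ht v))).subset
      intro j hj
      simp only [Set.mem_ofPred_eq] at hj
      by_cases h : s ^ j = ht v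
      · right
        have : j < s ^ j := lt_spow j
        simp only [Set.mem_ofPred_eq]; omega
      · left; simpa [h] using hj⟩

@[simp] lemma ht_downV (v : Vert s) (a : Fin (4 * s)) : ht (downV v a) = ht v - 1 := rfl
lemma lp_downV (v : Vert s) (a : Fin (4 * s)) (j : ℕ) :
    lp (downV v a) j = if s ^ j = ht v then (a : ℕ) else lp v j := rfl

/-- `p` is a power of two -/
def IsPow (s p : ℕ) : Prop := ∃ j, s ^ j = p

noncomputable instance (p : ℕ) : Decidable (IsPow s p) := Classical.dec _

lemma not_isPow_zero : ¬ IsPow s 0 := by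
  rintro ⟨j, hj⟩
  have : 0 < s ^ j := spos j
  omega

open Classical in
/-- the up neighbours -/
noncomputable def upN (v : Vert s) : Finset (Vert s) := Finset.univ.image (upV v)

open Classical in
/-- the down neighbours -/
noncomputable def downN (v : Vert s) : Finset (Vert s) :=
  if ht v = 0 then ∅ else Finset.univ.image (downV v)

lemma mem_upN (v u : Vert s) : u ∈ upN v ↔ Up v u := by
  classical
  unfold upN
  rw [Finset.mem_image]
  constructor
  · rintro ⟨a, _, rfl⟩
    refine ⟨rfl, fun j hj => ?_⟩
    rw [lp_upV, if_neg hj]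
  · rintro ⟨h1, h2⟩
    by_cases hp : IsPow s (ht v + 1)
    · obtain ⟨i, hi⟩ := hp
      refine ⟨⟨lp u i, lp_lt_two u i (by omega)⟩, Finset.mem_univ _, ?_⟩
      apply Vert.ext'
      · rw [ht_upV, h1]
      · intro j
        rw [lp_upV]
        split_ifs with hj
        · have : j = i := spow_inj (hj.trans hi.symm)
          rw [this]
        · exact (h2 j hj).symm
    · refine ⟨0, Finset.mem_univ _, ?_⟩
      apply Vert.ext'
      · rw [ht_upV, h1]
      · intro j
        have hj : s ^ j ≠ ht v + 1 := fun h => hp ⟨j, h⟩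
        rw [lp_upV, if_neg hj, h2 j hj]

lemma mem_downN (v u : Vert s) : u ∈ downN v ↔ Up u v := by
  classical
  unfold downN
  by_cases h0 : ht v = 0
  · rw [if_pos h0]
    constructor
    · intro h; exact absurd h (Finset.notMem_empty _)
    · intro h; have := h.1; omega
  rw [if_neg h0, Finset.mem_image]
  constructor
  · rintro ⟨a, _, rfl⟩
    refine ⟨by rw [ht_downV]; omega, fun j hj => ?_⟩
    rw [ht_downV] at hj
    rw [lp_downV, if_neg (by omega)]
  · rintro ⟨h1, h2⟩
    by_cases hp : IsPow s (ht v)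
    · obtain ⟨i, hi⟩ := hp
      refine ⟨⟨lp u i, lp_lt u i⟩, Finset.mem_univ _, ?_⟩
      apply Vert.ext'
      · rw [ht_downV, h1]; omega
      · intro j
        rw [lp_downV]
        split_ifs with hj
        · have : j = i := spow_inj (hj.trans hi.symm)
          rw [this]
        · exact h2 j (by omega)
    · refine ⟨0, Finset.mem_univ _, ?_⟩
      apply Vert.ext'
      · rw [ht_downV, h1]; omega
      · intro j
        have hj : s ^ j ≠ ht v := fun h => hp ⟨j, h⟩
        rw [lp_downV, if_neg hj, h2 j (by omega)]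

open Classical in
/-- all neighbours -/
noncomputable def nb (v : Vert s) : Finset (Vert s) := upN v ∪ downN v

lemma mem_nb (v u : Vert s) : u ∈ nb v ↔ gr.Adj v u := by
  classical
  unfold nb
  rw [Finset.mem_union, mem_upN, mem_downN]
  rfl

lemma disj_nb (v : Vert s) : Disjoint (upN v) (downN v) := by
  rw [Finset.disjoint_left]
  intro u h1 h2
  rw [mem_upN] at h1
  rw [mem_downN] at h2
  have := h1.1; have := h2.1; omega

/-- number of up neighbours -/
noncomputable def upc (s x : ℕ) : ℕ := if IsPow s (x + 1) then 2 else 1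

/-- number of down neighbours -/
noncomputable def downc (s x : ℕ) : ℕ := if x = 0 then 0 else if IsPow s x then 4 * s else 1

lemma sum_upN {M : Type*} [AddCommMonoid M] (v : Vert s) (f : Vert s → M) :
    ∑ u ∈ upN v, f u = if IsPow s (ht v + 1) then f (upV v 0) + f (upV v 1) else f (upV v 0) := by
  classical
  unfold upN
  split_ifs with hp
  · obtain ⟨i, hi⟩ := hp
    rw [Finset.sum_image]
    · rw [Fin.sum_univ_two]
    · intro a _ b _ hab
      have : lp (upV v a) i = lp (upV v b) i := by rw [hab]
      rw [lp_upV, lp_upV, if_pos hi, if_pos hi] at this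
      exact Fin.ext this
  · have : (Finset.univ.image (upV v)) = {upV v 0} := by
      apply Finset.eq_singleton_iff_unique_mem.2
      refine ⟨Finset.mem_image_of_mem _ (Finset.mem_univ _), ?_⟩
      intro u hu
      obtain ⟨a, _, rfl⟩ := Finset.mem_image.1 hu
      refine Vert.ext' (by rfl) fun j => ?_
      have hj : s ^ j ≠ ht v + 1 := fun h => hp ⟨j, h⟩
      rw [lp_upV, lp_upV, if_neg hj, if_neg hj]
    rw [this, Finset.sum_singleton]

lemma sum_downN {M : Type*} [AddCommMonoid M] (v : Vert s) (h0 : ht v ≠ 0) (f : Vert s → M) :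
    ∑ u ∈ downN v, f u = if IsPow s (ht v) then ∑ a, f (downV v a) else f (downV v 0) := by
  classical
  unfold downN
  rw [if_neg h0]
  split_ifs with hp
  · obtain ⟨i, hi⟩ := hp
    rw [Finset.sum_image]
    intro a _ b _ hab
    have : lp (downV v a) i = lp (downV v b) i := by rw [hab]
    rw [lp_downV, lp_downV, if_pos hi, if_pos hi] at this
    exact Fin.ext this
  · have : (Finset.univ.image (downV v)) = {downV v 0} := by
      apply Finset.eq_singleton_iff_unique_mem.2
      refine ⟨Finset.mem_image_of_mem _ (Finset.mem_univ _), ?_⟩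
      intro u hu
      obtain ⟨a, _, rfl⟩ := Finset.mem_image.1 hu
      refine Vert.ext' (by rfl) fun j => ?_
      have hj : s ^ j ≠ ht v := fun h => hp ⟨j, h⟩
      rw [lp_downV, lp_downV, if_neg hj, if_neg hj]
    rw [this, Finset.sum_singleton]

/-- sum over the up neighbours of a function which is constant on them -/
lemma sum_upN_const {M : Type*} [AddCommMonoid M] (v : Vert s) (f : Vert s → M) (c : M)
    (h : ∀ u, Up v u → f u = c) : ∑ u ∈ upN v, f u = upc s (ht v) • c := by
  classical
  have h0 : ∀ a, f (upV v a) = c := fun a => h _ ((mem_upN v _).1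
    (Finset.mem_image_of_mem _ (Finset.mem_univ a)))
  rw [sum_upN, h0, h0]
  unfold upc
  split_ifs
  · rw [two_nsmul]
  · rw [one_nsmul]

lemma sum_downN_const {M : Type*} [AddCommMonoid M] (v : Vert s) (f : Vert s → M) (c : M)
    (h : ∀ u, Up u v → f u = c) : ∑ u ∈ downN v, f u = downc s (ht v) • c := by
  classical
  by_cases h0 : ht v = 0
  · unfold downN downc
    rw [if_pos h0, if_pos h0]; simp
  have h1 : ∀ a, f (downV v a) = c := fun a => h _ ((mem_downN v _).1 (by
    unfold downN; rw [if_neg h0]
    exact Finset.mem_image_of_mem _ (Finset.mem_univ a)))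
  rw [sum_downN v h0]
  unfold downc
  rw [if_neg h0]
  simp only [h1]
  split_ifs
  · simp
  · rw [one_nsmul]

lemma card_nb (v : Vert s) : (nb v).card = upc s (ht v) + downc s (ht v) := by
  classical
  unfold nb
  rw [Finset.card_union_of_disjoint (disj_nb v), Finset.card_eq_sum_ones, Finset.card_eq_sum_ones,
    sum_upN_const v _ 1 (fun _ _ => rfl), sum_downN_const v _ 1 (fun _ _ => rfl)]
  simp

lemma upc_pos (x : ℕ) : 0 < upc s x := by unfold upc; split_ifs <;> norm_num

lemma upc_le (x : ℕ) : upc s x ≤ 2 := by unfold upc; split_ifs <;> norm_num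

lemma downc_le (x : ℕ) : downc s x ≤ 4 * s := by
  have := s_two s
  unfold downc; split_ifs <;> omega

lemma downc_zero : downc s 0 = 0 := by unfold downc; simp

/-! ### Connectedness -/

lemma reach_of_eq {u v : Vert s} (h : u = v) : gr.Reachable u v := h ▸ SimpleGraph.Reachable.refl _

lemma reach_down (v : Vert s) : gr.Reachable v ⟨(0, lp v), lp_lt v, by
    intro j hj
    have : 0 < s ^ j := spos j
    dsimp only at hj; omega, lp_fin v⟩ := by
  obtain ⟨⟨x, w⟩, hv1, hv2, hv3⟩ := v
  induction x with
  | zero => exact SimpleGraph.Reachable.refl _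
  | succ x ih =>
    have hv2' : ∀ j, s ^ j ≤ ((x, w) : ℕ × (ℕ → ℕ)).1 → ((x, w) : ℕ × (ℕ → ℕ)).2 j < 2 :=
      fun j hj => hv2 j (Nat.le_succ_of_le hj)
    have h1 : gr.Adj ⟨(x + 1, w), hv1, hv2, hv3⟩ ⟨(x, w), hv1, hv2', hv3⟩ := by
      right
      exact ⟨rfl, fun j _ => rfl⟩
    exact h1.reachable.trans (ih hv1 hv2' hv3)

/-- `(0,w)` is connected to `(m, w with the lamps up to height m switched off)` -/
lemma reach_up (w : ℕ → ℕ) (h1 : ∀ j, w j < 4 * s) (h3 : {j | w j ≠ 0}.Finite) (m : ℕ) :
    gr.Reachable ⟨(0, w), h1, by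
      intro j hj
      have : 0 < s ^ j := spos j
      dsimp only at hj; omega, h3⟩
    ⟨(m, fun j => if s ^ j ≤ m then 0 else w j), by
      intro j; dsimp only; split_ifs
      · have := s_two s; omega
      · exact h1 j, by
      intro j hj; dsimp only at hj ⊢; rw [if_pos hj]; norm_num, by
      apply h3.subset
      intro j hj
      simp only [Set.mem_ofPred_eq] at hj ⊢
      by_contra hc
      apply hj; rw [hc]; simp⟩ := by
  induction m with
  | zero =>
    apply reach_of_eq
    refine Vert.ext' (by rfl) fun j => ?_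
    have : 0 < s ^ j := spos j
    change w j = if s ^ j ≤ 0 then 0 else w j
    rw [if_neg (by omega)]
  | succ m ih =>
    refine ih.trans (SimpleGraph.Adj.reachable ?_)
    left
    refine ⟨rfl, fun j hj => ?_⟩
    change (if s ^ j ≤ m + 1 then 0 else w j) = if s ^ j ≤ m then 0 else w j
    change s ^ j ≠ m + 1 at hj
    by_cases hc : s ^ j ≤ m
    · rw [if_pos hc, if_pos (by omega)]
    · rw [if_neg hc, if_neg (by omega)]

lemma reach_base (v : Vert s) : gr.Reachable v (base 0) := by
  obtain ⟨N, hN⟩ := (lp_fin v).bddAbove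
  have h1 := reach_down v
  have h2 := reach_up (lp v) (lp_lt v) (lp_fin v) (s ^ N)
  have h3 := reach_down (base (s ^ N) : Vert s)
  refine h1.trans (h2.trans ?_)
  refine (reach_of_eq (Vert.ext' (v := base (s ^ N)) (by rfl) fun j => ?_)).trans h3
  change (if s ^ j ≤ s ^ N then 0 else lp v j) = 0
  split_ifs with h
  · rfl
  · by_contra hc
    have : j ≤ N := hN hc
    exact h (spow_le this)

lemma gr_connected : (gr : SimpleGraph (Vert s)).Connected := by
  have : Nonempty (Vert s) := ⟨base 0⟩
  exact ⟨fun u v => (reach_base u).trans (reach_base v).symm⟩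

/-! ### The weighted graph -/

/-- unit weights -/
noncomputable def wt0 (v u : Vert s) : ℝ := by classical exact if gr.Adj v u then 1 else 0

lemma wt0_adj {v u : Vert s} (h : gr.Adj v u) : wt0 v u = 1 := by
  unfold wt0; rw [if_pos h]

lemma wt0_not {v u : Vert s} (h : ¬ gr.Adj v u) : wt0 v u = 0 := by
  unfold wt0; rw [if_neg h]

lemma hasSum_wt0 (v : Vert s) (f : Vert s → ℝ) :
    HasSum (fun u => wt0 v u * f u) (∑ u ∈ nb v, f u) := by
  have h1 : ∑ u ∈ nb v, f u = ∑ u ∈ nb v, wt0 v u * f u := by
    refine Finset.sum_congr rfl fun u hu => ?_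
    rw [wt0_adj ((mem_nb v u).1 hu), one_mul]
  rw [h1]
  apply hasSum_sum_of_ne_finset_zero
  intro u hu
  rw [wt0_not (fun h => hu ((mem_nb v u).2 h)), zero_mul]

/-- degree as a function of the height -/
noncomputable def dg (s x : ℕ) : ℝ := (upc s x : ℝ) + (downc s x : ℝ)

lemma dg_pos (x : ℕ) : 0 < dg s x := by
  unfold dg
  have : (0 : ℝ) < upc s x := by exact_mod_cast upc_pos x
  positivity

/-- the weighted graph -/
noncomputable def G0 : WGraph (Vert s) where
  graph := gr
  conn := gr_connected
  wt := wt0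
  wt_symm := by
    intro v w
    by_cases h : gr.Adj v w
    · rw [wt0_adj h, wt0_adj h.symm]
    · rw [wt0_not h, wt0_not (fun h' => h h'.symm)]
  wt_pos := by intro v w h; rw [wt0_adj h]; norm_num
  wt_zero := fun v w h => wt0_not h
  wt_summable := by
    intro v
    have := (hasSum_wt0 v (fun _ => 1)).summable
    simpa using this

lemma total_G0 (v : Vert s) : G0.total v = dg s (ht v) := by
  unfold WGraph.total dg
  have := (hasSum_wt0 v (fun _ => 1)).tsum_eq
  simp only [mul_one, Finset.sum_const, card_nb, nsmul_eq_mul] at this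
  change ∑' w, wt0 v w = _
  rw [this]; push_cast; ring

lemma P_G0 (v u : Vert s) : G0.P v u = wt0 v u / dg s (ht v) := by
  unfold WGraph.P
  rw [total_G0]; rfl

lemma hasSum_P (v : Vert s) (f : Vert s → ℝ) :
    HasSum (fun u => G0.P v u * f u) ((∑ u ∈ nb v, f u) / dg s (ht v)) := by
  have e : (fun u => G0.P v u * f u) = fun u => wt0 v u * f u / dg s (ht v) := by
    funext u; rw [P_G0]; ring
  rw [e]
  exact (hasSum_wt0 v f).div_const (dg s (ht v))

/-! ### Automorphisms -/

/-- exchange `w j` and `w' j` at every lamp `j` lying on the same side as seen from `x` -/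
def swapMap (w w' : Vert s) (h : ht w = ht w') (z : Vert s) : Vert s :=
  ⟨(ht z, fun j => if (s ^ j ≤ ht w ↔ s ^ j ≤ ht z) then Equiv.swap (lp w j) (lp w' j) (lp z j)
    else lp z j), by
    refine ⟨fun j => ?_, fun j hj => ?_, ?_⟩
    · dsimp only
      split_ifs
      · rw [Equiv.swap_apply_def]
        have := lp_lt w j; have := lp_lt w' j; have := lp_lt z j
        split_ifs <;> assumption
      · exact lp_lt z j
    · dsimp only at hj ⊢
      split_ifs with hc
      · rw [Equiv.swap_apply_def]
        have h1 : s ^ j ≤ ht w := hc.2 hj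
        have := lp_lt_two w j h1
        have := lp_lt_two w' j (by omega)
        have := lp_lt_two z j hj
        split_ifs <;> assumption
      · exact lp_lt_two z j hj
    · apply (((lp_fin w).union (lp_fin w')).union (lp_fin z)).subset
      intro j hj
      by_contra hc
      simp only [Set.mem_union, Set.mem_ofPred_eq, not_or, not_not] at hc
      apply hj
      dsimp only
      rw [hc.1.1, hc.1.2, hc.2]
      simp⟩

lemma ht_swapMap (w w' : Vert s) (h : ht w = ht w') (z : Vert s) : ht (swapMap w w' h z) = ht z := rfl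

lemma lp_swapMap (w w' : Vert s) (h : ht w = ht w') (z : Vert s) (j : ℕ) :
    lp (swapMap w w' h z) j = if (s ^ j ≤ ht w ↔ s ^ j ≤ ht z) then
      Equiv.swap (lp w j) (lp w' j) (lp z j) else lp z j := rfl

lemma swapMap_invol (w w' : Vert s) (h : ht w = ht w') :
    Function.Involutive (swapMap w w' h) := by
  intro z
  refine Vert.ext' (by rfl) fun j => ?_
  rw [lp_swapMap, ht_swapMap, lp_swapMap]
  split_ifs
  · simp
  · rfl

lemma swapMap_self (w w' : Vert s) (h : ht w = ht w') : swapMap w w' h w = w' := by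
  refine Vert.ext' h fun j => ?_
  rw [lp_swapMap, if_pos Iff.rfl]
  simp

lemma swapMap_up (w w' : Vert s) (h : ht w = ht w') {y z : Vert s} (hyz : Up y z) :
    Up (swapMap w w' h y) (swapMap w w' h z) := by
  refine ⟨hyz.1, fun j hj => ?_⟩
  rw [ht_swapMap] at hj
  have h1 := hyz.2 j hj
  have h2 := hyz.1
  have h3 : (s ^ j ≤ ht w ↔ s ^ j ≤ ht z) ↔ (s ^ j ≤ ht w ↔ s ^ j ≤ ht y) := by
    have : s ^ j ≤ ht z ↔ s ^ j ≤ ht y := by
      constructor <;> intro h <;> omega
    rw [this]
  rw [lp_swapMap, lp_swapMap, h1]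
  by_cases hc : (s ^ j ≤ ht w ↔ s ^ j ≤ ht y)
  · rw [if_pos hc, if_pos (h3.2 hc)]
  · rw [if_neg hc, if_neg (fun h' => hc (h3.1 h'))]

lemma swapMap_adj (w w' : Vert s) (h : ht w = ht w') (y z : Vert s) :
    gr.Adj (swapMap w w' h y) (swapMap w w' h z) ↔ gr.Adj y z := by
  have key : ∀ y z, gr.Adj y z → gr.Adj (swapMap w w' h y) (swapMap w w' h z) := by
    rintro y z (h1 | h1)
    · exact Or.inl (swapMap_up w w' h h1)
    · exact Or.inr (swapMap_up w w' h h1)
  constructor
  · intro h1
    have := key _ _ h1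
    rwa [swapMap_invol w w' h y, swapMap_invol w w' h z] at this
  · exact key y z

lemma rootedIso_of_ht_eq (w w' : Vert s) (h : ht w = ht w') : WGraph.RootedIso G0 w G0 w' := by
  refine ⟨(swapMap_invol w w' h).toPerm, swapMap_self w w' h, fun y z => ?_⟩
  change G0.P (swapMap w w' h y) (swapMap w w' h z) = G0.P y z
  rw [P_G0, P_G0, ht_swapMap]
  congr 1
  by_cases hc : gr.Adj y z
  · rw [wt0_adj hc, wt0_adj ((swapMap_adj w w' h y z).2 hc)]
  · rw [wt0_not hc, wt0_not (fun h' => hc ((swapMap_adj w w' h y z).1 h'))]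

end Pool.Agent.Y423.HD
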