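import Mathlib
import Pool.Agent.Y423.HD.Graph

set_option autoImplicit false
set_option linter.unusedSectionVars false

/-!
# Harmonic functions of growth close to quadratic: the harmonic functions
-/

open MeasureTheory
open scoped ENNReal

namespace Pool.Agent.Y423.HD

open Pool.Agent.Results.MP_1af0ac_pr.InfiniteDim (WGraph StationaryRandomGraph)

variable {s : ℕ} [hs : Fact (2 ≤ s)]

/-! ### Sizes -/

/-- the number of powers of `s` up to `x` -/
noncomputable def sz (s x : ℕ) : ℕ := if x = 0 then 0 else Nat.log s x + 1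

lemma lt_sz (n x : ℕ) : n < sz s x ↔ s ^ n ≤ x := by
  unfold sz
  split_ifs with h
  · subst h
    have := spos (s := s) n
    omega
  · rw [Nat.lt_succ_iff, Nat.le_log_iff_pow_le (by have := s_two s; omega) h]

lemma lt_pow_sz (x : ℕ) : x < s ^ sz s x := by
  by_contra h
  push Not at h
  exact lt_irrefl _ ((lt_sz _ _).2 h)

lemma sz_le (n x : ℕ) : sz s x ≤ n ↔ x < s ^ n := by
  rw [← not_lt, lt_sz, not_le]

lemma size_succ (x : ℕ) : sz s (x + 1) = sz s x + (if IsPow s (x + 1) then 1 else 0) := by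
  split_ifs with h
  · obtain ⟨j, hj⟩ := h
    have e1 : sz s (x + 1) = j + 1 := by
      apply eq_of_forall_lt_iff
      intro c
      rw [lt_sz, ← hj, Nat.lt_succ_iff]
      exact Nat.pow_le_pow_iff_right (by have := s_two s; omega)
    have e2 : sz s x = j := by
      apply eq_of_forall_lt_iff
      intro c
      rw [lt_sz]
      constructor
      · intro hc
        have : s ^ c < s ^ j := by omega
        exact (Nat.pow_lt_pow_iff_right (by have := s_two s; omega)).1 this
      · intro hc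
        have : s ^ c < s ^ j := (Nat.pow_lt_pow_iff_right (by have := s_two s; omega)).2 hc
        omega
    rw [e1, e2]
  · rw [add_zero]
    apply eq_of_forall_lt_iff
    intro c
    rw [lt_sz, lt_sz]
    have : s ^ c ≠ x + 1 := fun h' => h ⟨c, h'⟩
    omega

lemma updown (x : ℕ) : downc s (x + 1) * (2 * s) ^ sz s x = upc s x * (2 * s) ^ sz s (x + 1) := by
  rw [size_succ]
  unfold downc upc
  rw [if_neg (Nat.succ_ne_zero x)]
  split_ifs
  · rw [pow_succ]; ring
  · simp

lemma succ_le_pow_sz (x : ℕ) : x + 1 ≤ s ^ sz s x := lt_pow_sz x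

lemma pow_sz_le (x : ℕ) : s ^ sz s x ≤ s * (x + 1) := by
  rcases Nat.eq_zero_or_pos (sz s x) with h | h
  · rw [h]
    have := s_two s
    nlinarith
  · obtain ⟨i, hi⟩ : ∃ i, sz s x = i + 1 := ⟨sz s x - 1, by omega⟩
    have h2 : s ^ i ≤ x := (lt_sz i x).1 (by omega)
    rw [hi, pow_succ, mul_comm]
    exact Nat.mul_le_mul_left _ (by omega)

lemma pow_sz_le' (x : ℕ) (hx : 1 ≤ x) : s ^ sz s x ≤ s * x := by
  have h : 0 < sz s x := by
    rw [lt_sz]; simpa using hx
  obtain ⟨i, hi⟩ : ∃ i, sz s x = i + 1 := ⟨sz s x - 1, by omega⟩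
  have h2 : s ^ i ≤ x := (lt_sz i x).1 (by omega)
  rw [hi, pow_succ, mul_comm]
  exact Nat.mul_le_mul_left _ h2

/-- powers of two as real powers -/
lemma two_pow_eq {θ : ℝ} (hθ : (s : ℝ) ^ θ = 2) (a : ℕ) : (2 : ℝ) ^ a = ((s : ℝ) ^ a) ^ θ := by
  have h0 : (0 : ℝ) ≤ s := Nat.cast_nonneg s
  rw [← hθ, ← Real.rpow_natCast, ← Real.rpow_natCast, ← Real.rpow_mul h0, ← Real.rpow_mul h0,
    mul_comm]

/-! ### Harmonic functions -/

/-- increments of the radial function -/
noncomputable def D (s y : ℕ) : ℝ := (2 * (s : ℝ)) ^ sz s y / (upc s y : ℝ)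

lemma D_pos (y : ℕ) : 0 < D s y := by
  unfold D
  have : (0 : ℝ) < upc s y := by exact_mod_cast upc_pos y
  have h2 : (0 : ℝ) < s := by
    have := s_two s
    exact_mod_cast (by omega : 0 < s)
  positivity

lemma D_le {θ : ℝ} (hθ : (s : ℝ) ^ θ = 2) (hθ0 : 0 ≤ θ) (y : ℕ) :
    D s y ≤ ((s : ℝ) * ((y : ℝ) + 1)) ^ (1 + θ) := by
  have h1 : (1 : ℝ) ≤ upc s y := by exact_mod_cast upc_pos y
  have h2 : (s : ℝ) ^ sz s y ≤ s * (y + 1) := by exact_mod_cast pow_sz_le (s := s) y
  have hs0 : (0 : ℝ) < s := by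
    have := s_two s
    exact_mod_cast (by omega : 0 < s)
  have h3 : (0 : ℝ) < (s : ℝ) ^ sz s y := by positivity
  unfold D
  calc (2 * (s : ℝ)) ^ sz s y / (upc s y : ℝ) ≤ (2 * (s : ℝ)) ^ sz s y :=
        div_le_self (by positivity) h1
    _ = ((s : ℝ) ^ sz s y) ^ (1 + θ) := by
        rw [mul_pow, two_pow_eq hθ, Real.rpow_add h3, Real.rpow_one, mul_comm]
    _ ≤ ((s : ℝ) * ((y : ℝ) + 1)) ^ (1 + θ) :=
        Real.rpow_le_rpow h3.le h2 (by linarith)

/-- radial function of growth close to quadratic -/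
noncomputable def T (s x : ℕ) : ℝ := ∑ y ∈ Finset.range x, D s y

lemma T_succ (x : ℕ) : T s (x + 1) = T s x + D s x := by unfold T; rw [Finset.sum_range_succ]

lemma T_nonneg (x : ℕ) : 0 ≤ T s x := Finset.sum_nonneg fun y _ => (D_pos y).le

lemma T_mono {x y : ℕ} (h : x ≤ y) : T s x ≤ T s y := by
  unfold T
  exact Finset.sum_le_sum_of_subset_of_nonneg (Finset.range_mono h) fun z _ _ => (D_pos z).le

lemma T_le {θ : ℝ} (hθ : (s : ℝ) ^ θ = 2) (hθ0 : 0 ≤ θ) (x : ℕ) :
    T s x ≤ (s : ℝ) ^ (1 + θ) * (1 + (x : ℝ)) ^ (2 + θ) := by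
  have hs0 : (0 : ℝ) ≤ s := Nat.cast_nonneg s
  have hx0 : (0 : ℝ) ≤ x := Nat.cast_nonneg x
  have h1x : (0 : ℝ) < 1 + x := by linarith
  unfold T
  calc ∑ y ∈ Finset.range x, D s y
      ≤ ∑ _y ∈ Finset.range x, (s : ℝ) ^ (1 + θ) * (1 + (x : ℝ)) ^ (1 + θ) := by
        refine Finset.sum_le_sum fun y hy => (D_le hθ hθ0 y).trans ?_
        rw [← Real.mul_rpow hs0 h1x.le]
        apply Real.rpow_le_rpow (by positivity) _ (by linarith)
        apply mul_le_mul_of_nonneg_left _ hs0
        have : (y : ℝ) + 1 ≤ x := by exact_mod_cast Finset.mem_range.1 hy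
        linarith
    _ = (s : ℝ) ^ (1 + θ) * ((x : ℝ) * (1 + (x : ℝ)) ^ (1 + θ)) := by
        rw [Finset.sum_const, Finset.card_range, nsmul_eq_mul]; ring
    _ ≤ (s : ℝ) ^ (1 + θ) * ((1 + (x : ℝ)) * (1 + (x : ℝ)) ^ (1 + θ)) := by
        apply mul_le_mul_of_nonneg_left _ (by positivity)
        apply mul_le_mul_of_nonneg_right (by linarith) (by positivity)
    _ = (s : ℝ) ^ (1 + θ) * (1 + (x : ℝ)) ^ (2 + θ) := by
        congr 1
        rw [show (2 + θ) = 1 + (1 + θ) by ring, Real.rpow_add h1x 1 (1 + θ), Real.rpow_one]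

lemma flux (x : ℕ) : (downc s (x + 1) : ℝ) * D s x = upc s (x + 1) * D s (x + 1) := by
  have h1 : (downc s (x + 1) : ℝ) * (2 * (s : ℝ)) ^ sz s x =
      upc s x * (2 * (s : ℝ)) ^ sz s (x + 1) := by
    exact_mod_cast updown x
  have h2 : (0 : ℝ) < upc s x := by exact_mod_cast upc_pos x
  have h3 : (0 : ℝ) < upc s (x + 1) := by exact_mod_cast upc_pos (x + 1)
  unfold D
  field_simp
  linarith

/-- the harmonic function attached to lamp `i` -/
noncomputable def hf (i : ℕ) (v : Vert s) : ℝ :=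
  if s ^ i ≤ ht v then (1 - 2 * (lp v i : ℝ)) * (T s (ht v) - T s (s ^ i - 1)) else 0

lemma sum_nb_hf (i : ℕ) (v : Vert s) : ∑ u ∈ nb v, hf i u = dg s (ht v) * hf i v := by
  classical
  unfold nb
  rw [Finset.sum_union (disj_nb v)]
  have hpi : 0 < s ^ i := spos i
  rcases lt_trichotomy (ht v + 1) (s ^ i) with hlt | heq | hgt
  · -- below the lamp
    rw [sum_upN_const v _ 0, sum_downN_const v _ 0]
    · unfold hf; rw [if_neg (by omega)]; simp
    · intro u hu; unfold hf; have := hu.1; rw [if_neg (by omega)]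
    · intro u hu; unfold hf; have := hu.1; rw [if_neg (by omega)]
  · -- just below the lamp
    have hp : IsPow s (ht v + 1) := ⟨i, heq.symm⟩
    rw [sum_upN, if_pos hp, sum_downN_const v _ 0]
    · have e1 : hf i (upV v 0) = T s (s ^ i) - T s (s ^ i - 1) := by
        unfold hf
        rw [ht_upV, if_pos heq.ge, lp_upV, if_pos heq.symm, heq]
        simp
      have e2 : hf i (upV v 1) = -(T s (s ^ i) - T s (s ^ i - 1)) := by
        unfold hf
        rw [ht_upV, if_pos heq.ge, lp_upV, if_pos heq.symm, heq]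
        simp; ring
      have e3 : hf i v = 0 := by unfold hf; rw [if_neg (by omega)]
      rw [e1, e2, e3]; simp
    · intro u hu; unfold hf; have := hu.1; rw [if_neg (by omega)]
  · -- above the lamp
    have hge : s ^ i ≤ ht v := by omega
    obtain ⟨y, hy⟩ : ∃ y, ht v = y + 1 := ⟨ht v - 1, by omega⟩
    set sg : ℝ := 1 - 2 * (lp v i : ℝ) with hsg
    set T0 : ℝ := T s (s ^ i - 1) with hT0
    rw [sum_upN_const v _ (sg * (T s (ht v + 1) - T0)), sum_downN_const v _ (sg * (T s y - T0))]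
    · have e3 : hf i v = sg * (T s (ht v) - T0) := by unfold hf; rw [if_pos hge]
      rw [e3, nsmul_eq_mul, nsmul_eq_mul, hy, T_succ (y + 1), T_succ y]
      have hfl := flux (s := s) y
      unfold dg
      linear_combination (-sg) * hfl
    · intro u hu
      have h1 : ht u = y := by have := hu.1; omega
      unfold hf
      by_cases hc : s ^ i ≤ ht u
      · rw [if_pos hc, h1]
        have h2 := hu.2 i (by omega)
        rw [← h2]
      · rw [if_neg hc]
        have h3 : y = s ^ i - 1 := by omega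
        rw [hT0, h3]; ring
    · intro u hu
      have h1 := hu.1
      unfold hf
      rw [if_pos (by omega), h1, hu.2 i (by omega)]

lemma hf_harmonic (i : ℕ) (v : Vert s) : HasSum (fun u => G0.P v u * hf i u) (hf i v) := by
  have h := hasSum_P v (hf i)
  rw [sum_nb_hf, mul_div_cancel_left₀ _ (dg_pos _).ne'] at h
  exact h


lemma abs_hf_le {θ : ℝ} (hθ : (s : ℝ) ^ θ = 2) (hθ0 : 0 ≤ θ) (i : ℕ) (v : Vert s) :
    |hf i v| ≤ (s : ℝ) ^ (1 + θ) * (1 + (ht v : ℝ)) ^ (2 + θ) := by
  unfold hf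
  split_ifs with hc
  · have h1 := lp_lt_two v i hc
    have h2 : |1 - 2 * (lp v i : ℝ)| = 1 := by
      have : lp v i = 0 ∨ lp v i = 1 := by omega
      rcases this with h | h <;> rw [h] <;> norm_num
    have h3 : T s (s ^ i - 1) ≤ T s (ht v) := T_mono (by omega)
    have h4 := T_nonneg (s := s) (s ^ i - 1)
    have h5 := T_le hθ hθ0 (ht v)
    rw [abs_mul, h2, one_mul, abs_of_nonneg (by linarith)]
    linarith
  · rw [abs_zero]; positivity

end Pool.Agent.Y423.HD
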