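import Mathlib
import Pool.Agent.Y423.HD.Harm

set_option autoImplicit false
set_option linter.unusedSectionVars false

/-!
# Harmonic functions of growth close to quadratic: distances and volume growth
-/

open MeasureTheory
open scoped ENNReal

namespace Pool.Agent.Y423.HD

open Pool.Agent.Results.MP_1af0ac_pr.InfiniteDim (WGraph StationaryRandomGraph)

variable {s : ℕ} [hs : Fact (2 ≤ s)]

/-! ### Distances -/

lemma walk_bounds {u v : Vert s} (p : gr.Walk u v) :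
    ht v ≤ ht u + p.length ∧ ht u ≤ ht v + p.length ∧
    ∀ j, lp v j ≠ lp u j → s ^ j ≤ ht u + p.length ∧ ht u < s ^ j + p.length := by
  induction p with
  | nil => exact ⟨le_rfl, le_rfl, fun j hj => absurd rfl hj⟩
  | @cons u w v hadj p ih =>
    obtain ⟨i1, i2, i3⟩ := ih
    rw [SimpleGraph.Walk.length_cons]
    have hstep : ht w ≤ ht u + 1 ∧ ht u ≤ ht w + 1 ∧
        ∀ j, lp w j ≠ lp u j → s ^ j ≤ ht u + 1 ∧ ht u ≤ s ^ j := by
      rcases hadj with h | h
      · have h1 := h.1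
        refine ⟨by omega, by omega, fun j hj => ?_⟩
        have : s ^ j = ht u + 1 := by
          by_contra hc; exact hj (h.2 j hc)
        omega
      · have h1 := h.1
        refine ⟨by omega, by omega, fun j hj => ?_⟩
        have : s ^ j = ht w + 1 := by
          by_contra hc; exact hj (h.2 j hc).symm
        omega
    refine ⟨by omega, by omega, fun j hj => ?_⟩
    by_cases hc : lp v j = lp w j
    · have := hstep.2.2 j (by rw [← hc]; exact hj)
      omega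
    · have := i3 j hc
      omega

lemma ht_le_dist (u v : Vert s) : ht v ≤ ht u + gr.dist u v := by
  obtain ⟨p, hp⟩ := (gr_connected.preconnected u v).exists_walk_length_eq_dist
  have := (walk_bounds p).1
  rwa [hp] at this

lemma hf_mem {θ : ℝ} (hθ : (s : ℝ) ^ θ = 2) (hθ0 : 0 ≤ θ) {k : ℝ} (hk : 2 + θ ≤ k) (i : ℕ)
    (ρ : Vert s) : hf i ∈ G0.H ρ k := by
  refine ⟨hf_harmonic i, (s : ℝ) ^ (1 + θ) * (1 + (ht ρ : ℝ)) ^ k, fun v => ?_⟩
  change |hf i v| ≤ (s : ℝ) ^ (1 + θ) * (1 + (ht ρ : ℝ)) ^ k * (1 + (gr.dist ρ v : ℝ)) ^ k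
  refine (abs_hf_le hθ hθ0 i v).trans ?_
  have h1 : (ht v : ℝ) ≤ ht ρ + gr.dist ρ v := by exact_mod_cast ht_le_dist ρ v
  have h2 : (0 : ℝ) ≤ ht ρ := Nat.cast_nonneg _
  have h3 : (0 : ℝ) ≤ gr.dist ρ v := Nat.cast_nonneg _
  have h4 : (0 : ℝ) ≤ ht v := Nat.cast_nonneg _
  have h5 : 1 + (ht v : ℝ) ≤ (1 + (ht ρ : ℝ)) * (1 + (gr.dist ρ v : ℝ)) := by nlinarith
  have h6 : (1 + (ht v : ℝ)) ^ (2 + θ) ≤ (1 + (ht v : ℝ)) ^ k :=
    Real.rpow_le_rpow_of_exponent_le (by linarith) hk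
  have h7 : (1 + (ht v : ℝ)) ^ k ≤ ((1 + (ht ρ : ℝ)) * (1 + (gr.dist ρ v : ℝ))) ^ k :=
    Real.rpow_le_rpow (by linarith) h5 (by linarith)
  rw [Real.mul_rpow (by linarith) (by linarith)] at h7
  rw [mul_assoc]
  exact mul_le_mul_of_nonneg_left (h6.trans h7) (by positivity)

lemma hf_base_self (i : ℕ) : 0 < hf i (base (s ^ i) : Vert s) := by
  unfold hf
  have hpi : 0 < s ^ i := spos i
  obtain ⟨y, hy⟩ : ∃ y, s ^ i = y + 1 := ⟨s ^ i - 1, by omega⟩
  rw [ht_base, if_pos le_rfl, lp_base, hy, Nat.add_sub_cancel, T_succ]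
  simp only [Nat.cast_zero, mul_zero, sub_zero, one_mul, add_sub_cancel_left]
  exact D_pos y

lemma hf_base_lt (i j : ℕ) (h : i < j) : hf j (base (s ^ i) : Vert s) = 0 := by
  unfold hf
  have : s ^ i < s ^ j := Nat.pow_lt_pow_right (by have := s_two s; omega) h
  rw [ht_base, if_neg (by omega)]

lemma hf_linearIndependent {θ : ℝ} (hθ : (s : ℝ) ^ θ = 2) (hθ0 : 0 ≤ θ) {k : ℝ}
    (hk : 2 + θ ≤ k) (ρ : Vert s) :
    LinearIndependent ℝ (fun i : ℕ => (⟨hf i, hf_mem hθ hθ0 hk i ρ⟩ : G0.H ρ k)) := by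
  classical
  rw [linearIndependent_iff']
  intro S g hg i hi
  have hval : ∀ v : Vert s, ∑ j ∈ S, g j * hf j v = 0 := by
    intro v
    have h1 := congrArg (fun z : G0.H ρ k => (z : Vert s → ℝ) v) hg
    simpa [Finset.sum_apply] using h1
  by_contra hne
  set S' := S.filter (fun j => g j ≠ 0) with hS'
  have hne' : S'.Nonempty := ⟨i, Finset.mem_filter.2 ⟨hi, hne⟩⟩
  set i0 := S'.min' hne' with hi0
  have hmem := Finset.min'_mem S' hne'
  rw [← hi0, hS', Finset.mem_filter] at hmem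
  have h2 := hval (base (s ^ i0))
  rw [Finset.sum_eq_single i0] at h2
  · rcases mul_eq_zero.1 h2 with h | h
    · exact hmem.2 h
    · exact (hf_base_self i0).ne' h
  · intro j hj hji
    by_cases hgj : g j = 0
    · rw [hgj, zero_mul]
    · have : i0 ≤ j := Finset.min'_le S' j (Finset.mem_filter.2 ⟨hj, hgj⟩)
      rw [hf_base_lt i0 j (lt_of_le_of_ne this (Ne.symm hji)), mul_zero]
  · intro h; exact absurd hmem.1 h

lemma not_finiteDimensional {θ : ℝ} (hθ : (s : ℝ) ^ θ = 2) (hθ0 : 0 ≤ θ) {k : ℝ}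
    (hk : 2 + θ ≤ k) (ρ : Vert s) : ¬ FiniteDimensional ℝ (G0.H ρ k) := by
  intro h
  have := (hf_linearIndependent hθ hθ0 hk ρ).finite
  exact not_finite ℕ

/-! ### Growth -/

/-- the lamps that can be reached from height `x` in `n` steps -/
noncomputable def JJ (s x n : ℕ) : Finset ℕ :=
  (Finset.range (x + n + 1)).filter (fun j => s ^ j ≤ x + n ∧ x < s ^ j + n)

lemma mem_JJ {x n j : ℕ} : j ∈ JJ s x n ↔ s ^ j ≤ x + n ∧ x < s ^ j + n := by
  unfold JJ
  rw [Finset.mem_filter, Finset.mem_range]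
  constructor
  · exact fun h => h.2
  · intro h
    have : j < s ^ j := lt_spow j
    exact ⟨by omega, h⟩

/-- number of states of lamp `j` seen at height `z` -/
def st (s j z : ℕ) : ℕ := if s ^ j ≤ z then 2 else 4 * s

lemma st_pos (j z : ℕ) : 1 ≤ st s j z := by
  have := s_two s
  unfold st; split_ifs <;> omega

lemma st_le (j z : ℕ) : st s j z ≤ 4 * s := by
  have := s_two s
  unfold st; split_ifs <;> omega

/-- number of vertices at distance at most `n` : the first bound -/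
lemma encard_ball_le (u : Vert s) (n : ℕ) :
    (G0.ball u n).encard ≤
      ((∑ z ∈ Finset.Icc (ht u - n) (ht u + n), ∏ j ∈ JJ s (ht u) n, st s j z : ℕ) : ℕ∞) := by
  classical
  let f : Vert s → (Σ _ : ℕ, (JJ s (ht u) n → ℕ)) := fun v => ⟨ht v, fun j => lp v j⟩
  have hb : ∀ v ∈ G0.ball u n, ht v ≤ ht u + n ∧ ht u ≤ ht v + n ∧
      ∀ j, lp v j ≠ lp u j → j ∈ JJ s (ht u) n := by
    intro v hv
    obtain ⟨p, hp⟩ := (gr_connected.preconnected u v).exists_walk_length_eq_dist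
    have hv' : gr.dist u v ≤ n := hv
    have h := walk_bounds p
    rw [hp] at h
    refine ⟨by omega, by omega, fun j hj => ?_⟩
    have := h.2.2 j hj
    rw [mem_JJ]; omega
  let Y : Finset (Σ _ : ℕ, (JJ s (ht u) n → ℕ)) :=
    (Finset.Icc (ht u - n) (ht u + n)).sigma
      (fun z => Fintype.piFinset (fun j : JJ s (ht u) n => Finset.range (st s j z)))
  have hmaps : Set.MapsTo f (G0.ball u n) (Y : Set (Σ _ : ℕ, (JJ s (ht u) n → ℕ))) := by
    intro v hv
    have h := hb v hv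
    rw [Finset.mem_coe, Finset.mem_sigma, Fintype.mem_piFinset]
    refine ⟨?_, fun j => ?_⟩
    · rw [Finset.mem_Icc]
      change ht u - n ≤ ht v ∧ ht v ≤ ht u + n
      omega
    · rw [Finset.mem_range]
      change lp v j < st s j (ht v)
      unfold st
      split_ifs with hc
      · exact lp_lt_two v j hc
      · exact lp_lt v j
  have hinj : Set.InjOn f (G0.ball u n) := by
    intro v hv v' hv' hvv
    have h1 : ht v = ht v' := congrArg (fun w : (Σ _ : ℕ, (JJ s (ht u) n → ℕ)) => w.1) hvv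
    have h2 : (fun j : JJ s (ht u) n => lp v j) = (fun j : JJ s (ht u) n => lp v' j) :=
      congrArg (fun w : (Σ _ : ℕ, (JJ s (ht u) n → ℕ)) => (w.2 : JJ s (ht u) n → ℕ)) hvv
    refine Vert.ext' h1 fun j => ?_
    by_cases hj : j ∈ JJ s (ht u) n
    · exact congrFun h2 ⟨j, hj⟩
    · have e1 : lp v j = lp u j := by
        by_contra hc; exact hj ((hb v hv).2.2 j hc)
      have e2 : lp v' j = lp u j := by
        by_contra hc; exact hj ((hb v' hv').2.2 j hc)
      rw [e1, e2]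
  refine (Set.encard_le_encard_of_injOn hmaps hinj).trans ?_
  rw [Set.encard_coe_eq_coe_finsetCard]
  norm_cast
  rw [Finset.card_sigma]
  refine le_of_eq (Finset.sum_congr rfl fun z _ => ?_)
  rw [Fintype.card_piFinset]
  simp only [Finset.card_range]
  exact Finset.prod_coe_sort (JJ s (ht u) n) (fun j => st s j z)

/-- the number of configurations below `s ^ N` -/
lemma SN_le (N : ℕ) : (∑ z ∈ Finset.range (s ^ N), ∏ j ∈ Finset.range N, st s j z) +
    (2 * s) ^ N ≤ 2 * (4 * s) ^ N := by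
  induction N with
  | zero => simp
  | succ N ih =>
    have h1 : s ^ N ≤ s ^ (N + 1) := spow_le (Nat.le_succ N)
    rw [← Finset.sum_range_add_sum_Ico _ h1]
    have e1 : ∑ z ∈ Finset.range (s ^ N), ∏ j ∈ Finset.range (N + 1), st s j z =
        (4 * s) * ∑ z ∈ Finset.range (s ^ N), ∏ j ∈ Finset.range N, st s j z := by
      rw [Finset.mul_sum]
      refine Finset.sum_congr rfl fun z hz => ?_
      rw [Finset.mem_range] at hz
      rw [Finset.prod_range_succ, mul_comm]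
      congr 1
      unfold st
      rw [if_neg (by omega)]
    have e2 : ∑ z ∈ Finset.Ico (s ^ N) (s ^ (N + 1)), ∏ j ∈ Finset.range (N + 1), st s j z ≤
        s ^ (N + 1) * 2 ^ (N + 1) := by
      have h2 : ∀ z ∈ Finset.Ico (s ^ N) (s ^ (N + 1)),
          ∏ j ∈ Finset.range (N + 1), st s j z = 2 ^ (N + 1) := by
        intro z hz
        rw [Finset.mem_Ico] at hz
        rw [Finset.prod_congr rfl (g := fun _ => 2)]
        · simp
        · intro j hj
          rw [Finset.mem_range] at hj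
          unfold st
          have : s ^ j ≤ s ^ N := spow_le (by omega)
          rw [if_pos (by omega)]
      rw [Finset.sum_congr rfl h2, Finset.sum_const, Nat.card_Ico, smul_eq_mul]
      exact Nat.mul_le_mul_right _ (Nat.sub_le _ _)
    rw [e1]
    have e3 : s ^ (N + 1) * 2 ^ (N + 1) + (2 * s) ^ (N + 1) = (4 * s) * (2 * s) ^ N := by
      rw [mul_pow, pow_succ, pow_succ, mul_pow]; ring
    have e4 : 2 * (4 * s) ^ (N + 1) = (4 * s) * (2 * (4 * s) ^ N) := by
      rw [pow_succ]; ring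
    rw [e4]
    calc (4 * s) * (∑ z ∈ Finset.range (s ^ N), ∏ j ∈ Finset.range N, st s j z) +
        (∑ z ∈ Finset.Ico (s ^ N) (s ^ (N + 1)), ∏ j ∈ Finset.range (N + 1), st s j z) +
          (2 * s) ^ (N + 1)
        ≤ (4 * s) * (∑ z ∈ Finset.range (s ^ N), ∏ j ∈ Finset.range N, st s j z) +
          (s ^ (N + 1) * 2 ^ (N + 1) + (2 * s) ^ (N + 1)) := by omega
      _ = (4 * s) * ((∑ z ∈ Finset.range (s ^ N), ∏ j ∈ Finset.range N, st s j z) +
          (2 * s) ^ N) := by rw [e3, mul_add]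
      _ ≤ (4 * s) * (2 * (4 * s) ^ N) := Nat.mul_le_mul_left _ ih

lemma caseA (x n : ℕ) : ∑ z ∈ Finset.Icc (x - n) (x + n), ∏ j ∈ JJ s x n, st s j z ≤
    2 * (4 * s) ^ (sz s (x + n)) := by
  have h1 : ∀ z, ∏ j ∈ JJ s x n, st s j z ≤ ∏ j ∈ Finset.range (sz s (x + n)), st s j z := by
    intro z
    apply Finset.prod_le_prod_of_subset_of_one_le'
    · intro j hj
      rw [Finset.mem_range, lt_sz]
      exact (mem_JJ.1 hj).1
    · intro j _ _
      exact st_pos j z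
  have h2 : Finset.Icc (x - n) (x + n) ⊆ Finset.range (s ^ sz s (x + n)) := by
    intro z hz
    rw [Finset.mem_Icc] at hz
    rw [Finset.mem_range]
    exact lt_of_le_of_lt hz.2 (lt_pow_sz _)
  have h3 := SN_le (s := s) (sz s (x + n))
  calc ∑ z ∈ Finset.Icc (x - n) (x + n), ∏ j ∈ JJ s x n, st s j z
      ≤ ∑ z ∈ Finset.Icc (x - n) (x + n), ∏ j ∈ Finset.range (sz s (x + n)), st s j z :=
        Finset.sum_le_sum fun z _ => h1 z
    _ ≤ ∑ z ∈ Finset.range (s ^ sz s (x + n)), ∏ j ∈ Finset.range (sz s (x + n)), st s j z :=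
        Finset.sum_le_sum_of_subset h2
    _ ≤ 2 * (4 * s) ^ (sz s (x + n)) := by omega

lemma card_JJ_le {x n : ℕ} (hx : 2 * n < x) : (JJ s x n).card ≤ 2 := by
  classical
  rcases (JJ s x n).eq_empty_or_nonempty with h | h
  · rw [h]; simp
  · set a := (JJ s x n).min' h with ha
    have ham := Finset.min'_mem _ h
    rw [← ha, mem_JJ] at ham
    have hsub : JJ s x n ⊆ {a, a + 1} := by
      intro j hj
      have h1 : a ≤ j := Finset.min'_le _ j hj
      rw [mem_JJ] at hj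
      rw [Finset.mem_insert, Finset.mem_singleton]
      by_contra hc
      have h2 : a + 2 ≤ j := by omega
      have h3 : s ^ (a + 2) ≤ s ^ j := spow_le h2
      have h4 : 4 * s ^ a ≤ s ^ (a + 2) := by
        rw [pow_add, mul_comm]
        have := s_two s
        exact Nat.mul_le_mul_left _ (by nlinarith)
      omega
    exact (Finset.card_le_card hsub).trans (Finset.card_le_two)

lemma caseB {x n : ℕ} (hn : 1 ≤ n) (hx : 2 * n < x) :
    ∑ z ∈ Finset.Icc (x - n) (x + n), ∏ j ∈ JJ s x n, st s j z ≤ 48 * s ^ 2 * n := by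
  have h4s : 1 ≤ 4 * s := by have := s_two s; omega
  have h1 : ∀ z, ∏ j ∈ JJ s x n, st s j z ≤ (4 * s) ^ 2 := by
    intro z
    calc ∏ j ∈ JJ s x n, st s j z ≤ ∏ _j ∈ JJ s x n, (4 * s) :=
          Finset.prod_le_prod' fun j _ => st_le j z
      _ = (4 * s) ^ (JJ s x n).card := by rw [Finset.prod_const]
      _ ≤ (4 * s) ^ 2 := Nat.pow_le_pow_right h4s (card_JJ_le hx)
  calc ∑ z ∈ Finset.Icc (x - n) (x + n), ∏ j ∈ JJ s x n, st s j z
      ≤ ∑ _z ∈ Finset.Icc (x - n) (x + n), (4 * s) ^ 2 := Finset.sum_le_sum fun z _ => h1 z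
    _ = (x + n + 1 - (x - n)) * (4 * s) ^ 2 := by
        rw [Finset.sum_const, Nat.card_Icc, smul_eq_mul]
    _ ≤ (3 * n) * (4 * s) ^ 2 := Nat.mul_le_mul_right _ (by omega)
    _ = 48 * s ^ 2 * n := by ring

/-- the volume bound -/
lemma ball_bound {θ : ℝ} (hθ : (s : ℝ) ^ θ = 2) (hθ0 : 0 ≤ θ) :
    ∃ C : ℝ, 0 < C ∧ ∀ (u : Vert s) (n : ℕ), 1 ≤ n →
      ∃ M : ℕ, (G0.ball u n).encard ≤ (M : ℕ∞) ∧ (M : ℝ) ≤ C * (n : ℝ) ^ (1 + 2 * θ) := by
  have hs0 : (0 : ℝ) < s := by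
    have := s_two s
    exact_mod_cast (by omega : 0 < s)
  refine ⟨2 * (3 * (s : ℝ)) ^ (1 + 2 * θ) + 48 * (s : ℝ) ^ 2, by positivity, ?_⟩
  intro u n hn
  refine ⟨_, encard_ball_le u n, ?_⟩
  have hn1 : (1 : ℝ) ≤ n := by exact_mod_cast hn
  have hn0 : (0 : ℝ) ≤ n := by linarith
  have hpn : (n : ℝ) ≤ (n : ℝ) ^ (1 + 2 * θ) := by
    calc (n : ℝ) = (n : ℝ) ^ (1 : ℝ) := (Real.rpow_one _).symm
      _ ≤ (n : ℝ) ^ (1 + 2 * θ) := Real.rpow_le_rpow_of_exponent_le hn1 (by linarith)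
  have hp0 : (0 : ℝ) ≤ (n : ℝ) ^ (1 + 2 * θ) := by positivity
  rcases Nat.lt_or_ge (2 * n) (ht u) with hx | hx
  · have h1 := caseB (s := s) hn hx
    have h2 : ((∑ z ∈ Finset.Icc (ht u - n) (ht u + n), ∏ j ∈ JJ s (ht u) n, st s j z : ℕ) : ℝ)
        ≤ 48 * (s : ℝ) ^ 2 * n := by exact_mod_cast h1
    have h3 : 0 ≤ 2 * (3 * (s : ℝ)) ^ (1 + 2 * θ) := by positivity
    have h4 : 48 * (s : ℝ) ^ 2 * n ≤ 48 * (s : ℝ) ^ 2 * (n : ℝ) ^ (1 + 2 * θ) :=
      mul_le_mul_of_nonneg_left hpn (by positivity)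
    have h5 := mul_nonneg h3 hp0
    rw [add_mul]
    linarith
  · have h1 := caseA (s := s) (ht u) n
    have h2 : ((∑ z ∈ Finset.Icc (ht u - n) (ht u + n), ∏ j ∈ JJ s (ht u) n, st s j z : ℕ) : ℝ)
        ≤ 2 * (4 * (s : ℝ)) ^ (sz s (ht u + n)) := by exact_mod_cast h1
    have h3 : s ^ sz s (ht u + n) ≤ s * (ht u + n) := pow_sz_le' _ (by omega)
    have h4 : s ^ sz s (ht u + n) ≤ 3 * s * n := by
      refine h3.trans ?_
      calc s * (ht u + n) ≤ s * (3 * n) := Nat.mul_le_mul_left _ (by omega)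
        _ = 3 * s * n := by ring
    have h5 : (s : ℝ) ^ sz s (ht u + n) ≤ 3 * s * n := by exact_mod_cast h4
    obtain ⟨A, hA⟩ : ∃ A : ℝ, A = (s : ℝ) ^ sz s (ht u + n) := ⟨_, rfl⟩
    have hA0 : 0 < A := by rw [hA]; positivity
    have h6 : (4 * (s : ℝ)) ^ (sz s (ht u + n)) = A ^ (1 + 2 * θ) := by
      rw [mul_pow, show (4 : ℝ) = 2 * 2 by norm_num, mul_pow, two_pow_eq hθ, ← hA,
        Real.rpow_add hA0, Real.rpow_one, show 2 * θ = θ + θ by ring, Real.rpow_add hA0]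
      ring
    have h7 : A ^ (1 + 2 * θ) ≤ (3 * (s : ℝ)) ^ (1 + 2 * θ) * (n : ℝ) ^ (1 + 2 * θ) := by
      rw [← Real.mul_rpow (by positivity) hn0]
      exact Real.rpow_le_rpow hA0.le (by rw [hA]; exact h5) (by linarith)
    rw [h6] at h2
    have h8 : 0 ≤ 48 * (s : ℝ) ^ 2 * (n : ℝ) ^ (1 + 2 * θ) := by positivity
    rw [add_mul]
    linarith

end Pool.Agent.Y423.HD
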