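import Mathlib
import Pool.Agent.Y423.HD.Growth

set_option autoImplicit false
set_option linter.unusedSectionVars false

/-!
# Harmonic functions of growth close to quadratic: the stationary law
-/

open MeasureTheory
open scoped ENNReal

namespace Pool.Agent.Y423.HD

open Pool.Agent.Results.MP_1af0ac_pr.InfiniteDim (WGraph StationaryRandomGraph)

variable {s : ℕ} [hs : Fact (2 ≤ s)]

/-! ### The stationary law of the height of the root -/

/-- relative frequency of the vertices of height `x` -/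
noncomputable def kap (s x : ℕ) : ℝ≥0∞ := ((((2 * s : ℕ) : ℝ≥0∞)) ^ sz s x)⁻¹

lemma kap_rel (x : ℕ) : kap s (x + 1) * downc s (x + 1) = kap s x * upc s x := by
  unfold kap
  have h := updown (s := s) x
  have h' : (downc s (x + 1) : ℝ≥0∞) * ((2 * s : ℕ) : ℝ≥0∞) ^ sz s x =
      upc s x * ((2 * s : ℕ) : ℝ≥0∞) ^ sz s (x + 1) := by
    exact_mod_cast h
  have hs2 := s_two s
  have hne : ((2 * s : ℕ) : ℝ≥0∞) ≠ 0 := by
    have : 2 * s ≠ 0 := by omega
    exact_mod_cast this
  have hnt : ((2 * s : ℕ) : ℝ≥0∞) ≠ ∞ := ENNReal.natCast_ne_top _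
  have a0 : ((2 * s : ℕ) : ℝ≥0∞) ^ sz s x ≠ 0 := pow_ne_zero _ hne
  have a1 : ((2 * s : ℕ) : ℝ≥0∞) ^ sz s x ≠ ∞ := ENNReal.pow_ne_top hnt
  have b0 : ((2 * s : ℕ) : ℝ≥0∞) ^ sz s (x + 1) ≠ 0 := pow_ne_zero _ hne
  have b1 : ((2 * s : ℕ) : ℝ≥0∞) ^ sz s (x + 1) ≠ ∞ := ENNReal.pow_ne_top hnt
  rw [mul_comm, ← div_eq_mul_inv, mul_comm _ (upc s x : ℝ≥0∞), ← div_eq_mul_inv,
    ENNReal.div_eq_div_iff a0 a1 b0 b1]
  rw [mul_comm, h', mul_comm]

/-- weight of the vertices of height `x` -/
noncomputable def fw (s x : ℕ) : ℝ≥0∞ := kap s x * ((upc s x : ℝ≥0∞) + (downc s x : ℝ≥0∞))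

lemma fw_ne_zero : tsum (fw s) ≠ 0 := by
  have h0 : fw s 0 ≠ 0 := by
    unfold fw kap
    have := upc_pos (s := s) 0
    have e : sz s 0 = 0 := by unfold sz; simp
    rw [downc_zero, e]
    simp
    omega
  intro h
  rw [ENNReal.tsum_eq_zero] at h
  exact h0 (h 0)

lemma exists_theta (s : ℕ) [hs : Fact (2 ≤ s)] : ∃ θ : ℝ, 0 < θ ∧ (s : ℝ) ^ θ = 2 := by
  have h1 : (2 : ℝ) ≤ s := by exact_mod_cast s_two s
  refine ⟨Real.logb s 2, Real.logb_pos (by linarith) (by norm_num), ?_⟩
  exact Real.rpow_logb (by linarith) (by linarith) (by norm_num)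

lemma kap_le {θ : ℝ} (hθ : (s : ℝ) ^ θ = 2) (hθ0 : 0 ≤ θ) (x : ℕ) :
    kap s x ≤ ENNReal.ofReal (1 / ((x : ℝ) + 1) ^ (1 + θ)) := by
  unfold kap
  rw [one_div, ENNReal.ofReal_inv_of_pos (by positivity), ENNReal.inv_le_inv]
  have h1 := succ_le_pow_sz (s := s) x
  have h1' : (x : ℝ) + 1 ≤ (s : ℝ) ^ sz s x := by exact_mod_cast h1
  have hs0 : (0 : ℝ) < s := by
    have := s_two s
    exact_mod_cast (by omega : 0 < s)
  have h3 : (0 : ℝ) < (s : ℝ) ^ sz s x := by positivity
  have h2 : ((x : ℝ) + 1) ^ (1 + θ) ≤ (2 * (s : ℝ)) ^ sz s x := by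
    calc ((x : ℝ) + 1) ^ (1 + θ) ≤ ((s : ℝ) ^ sz s x) ^ (1 + θ) :=
          Real.rpow_le_rpow (by positivity) h1' (by linarith)
      _ = (2 * (s : ℝ)) ^ sz s x := by
          rw [mul_pow, two_pow_eq hθ, Real.rpow_add h3, Real.rpow_one, mul_comm]
  have h4 : (((2 * s : ℕ) : ℝ≥0∞)) ^ sz s x = ENNReal.ofReal ((2 * (s : ℝ)) ^ sz s x) := by
    rw [ENNReal.ofReal_pow (by positivity)]
    congr 1
    rw [← ENNReal.ofReal_natCast]; push_cast; rfl
  rw [h4]
  exact ENNReal.ofReal_le_ofReal h2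

lemma fw_ne_top : tsum (fw s) ≠ ∞ := by
  obtain ⟨θ, hθ0, hθ⟩ := exists_theta s
  have hs : Summable (fun x : ℕ => (4 * (s : ℝ) + 2) * (1 / ((x : ℝ) + 1) ^ (1 + θ))) := by
    apply Summable.mul_left
    have := (summable_nat_add_iff 1).2 (Real.summable_one_div_nat_rpow.2
      (by linarith : 1 < 1 + θ))
    refine this.congr fun x => ?_
    push_cast; rfl
  have hle : ∀ x, fw s x ≤ ENNReal.ofReal ((4 * (s : ℝ) + 2) * (1 / ((x : ℝ) + 1) ^ (1 + θ))) := by
    intro x
    unfold fw
    have h1 : ((upc s x : ℝ≥0∞) + (downc s x : ℝ≥0∞)) ≤ ((4 * s + 2 : ℕ) : ℝ≥0∞) := by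
      have h := upc_le (s := s) x
      have h' := downc_le (s := s) x
      have : upc s x + downc s x ≤ 4 * s + 2 := by omega
      exact_mod_cast this
    calc kap s x * ((upc s x : ℝ≥0∞) + (downc s x : ℝ≥0∞))
        ≤ ENNReal.ofReal (1 / ((x : ℝ) + 1) ^ (1 + θ)) * ((4 * s + 2 : ℕ) : ℝ≥0∞) :=
          mul_le_mul' (kap_le hθ hθ0.le x) h1
      _ = ENNReal.ofReal ((4 * (s : ℝ) + 2) * (1 / ((x : ℝ) + 1) ^ (1 + θ))) := by
          rw [ENNReal.ofReal_mul (by positivity), mul_comm]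
          congr 1
          rw [← ENNReal.ofReal_natCast]; push_cast; rfl
  refine ne_top_of_le_ne_top ?_ (ENNReal.tsum_le_tsum hle)
  rw [← ENNReal.ofReal_tsum_of_nonneg (fun x => by positivity) hs]
  exact ENNReal.ofReal_ne_top

/-- law of the height of the root -/
noncomputable def pm (s : ℕ) [Fact (2 ≤ s)] : PMF ℕ := PMF.normalize (fw s) fw_ne_zero fw_ne_top

lemma balance (a : ℕ → ℝ≥0∞) :
    ∑' x, (kap s x * upc s x * a (x + 1) + kap s x * downc s x * a (x - 1)) = ∑' x, fw s x * a x := by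
  rw [ENNReal.tsum_add]
  have h1 : ∑' x, kap s x * downc s x * a (x - 1) = ∑' x, kap s x * upc s x * a x := by
    rw [tsum_eq_zero_add' ENNReal.summable, downc_zero]
    simp only [Nat.cast_zero, mul_zero, zero_mul, zero_add, Nat.add_sub_cancel]
    exact tsum_congr fun x => by rw [kap_rel]
  have h2 : ∑' x, kap s x * upc s x * a (x + 1) = ∑' x, kap s x * downc s x * a x := by
    rw [tsum_eq_zero_add' (f := fun x => kap s x * downc s x * a x) ENNReal.summable, downc_zero]
    simp only [Nat.cast_zero, mul_zero, zero_mul, zero_add]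
    exact tsum_congr fun x => by rw [kap_rel]
  rw [h1, h2, ← ENNReal.tsum_add]
  refine tsum_congr fun x => ?_
  unfold fw
  ring

lemma inner_sum (A : Set (Vert s)) (a : ℕ → ℝ≥0∞) (ha : ∀ v, A.indicator 1 v = a (ht v)) (x : ℕ) :
    ∑' v, ENNReal.ofReal (G0.P (base x : Vert s) v) * A.indicator 1 v =
      ((upc s x : ℝ≥0∞) * a (x + 1) + downc s x * a (x - 1)) /
        ((upc s x : ℝ≥0∞) + (downc s x : ℝ≥0∞)) := by
  classical
  have hP : ∀ v, ENNReal.ofReal (G0.P (base x : Vert s) v) =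
      if v ∈ nb (base x : Vert s) then ((upc s x : ℝ≥0∞) + (downc s x : ℝ≥0∞))⁻¹ else 0 := by
    intro v
    rw [P_G0, ht_base]
    split_ifs with h
    · rw [wt0_adj ((mem_nb _ _).1 h), one_div, ENNReal.ofReal_inv_of_pos (dg_pos x)]
      unfold dg
      rw [ENNReal.ofReal_add (by positivity) (by positivity), ENNReal.ofReal_natCast,
        ENNReal.ofReal_natCast]
    · rw [wt0_not (fun h' => h ((mem_nb _ _).2 h'))]; simp
  rw [tsum_eq_sum (s := nb (base x : Vert s))]
  · have h1 : ∀ v ∈ nb (base x : Vert s), ENNReal.ofReal (G0.P (base x : Vert s) v) * A.indicator 1 v =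
        ((upc s x : ℝ≥0∞) + (downc s x : ℝ≥0∞))⁻¹ * a (ht v) := by
      intro v hv
      rw [hP, if_pos hv, ha]
    rw [Finset.sum_congr rfl h1, ← Finset.mul_sum]
    have h2 : ∑ v ∈ nb (base x : Vert s), a (ht v) = (upc s x : ℝ≥0∞) * a (x + 1) + downc s x * a (x - 1) := by
      unfold nb
      rw [Finset.sum_union (disj_nb _), sum_upN_const _ _ (a (x + 1)),
        sum_downN_const _ _ (a (x - 1))]
      · simp [nsmul_eq_mul]
      · intro u hu
        have : ht u = x - 1 := by have := hu.1; rw [ht_base] at this; omega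
        rw [this]
      · intro u hu
        have : ht u = x + 1 := hu.1
        rw [this]
    rw [h2, div_eq_mul_inv, mul_comm]
  · intro v hv
    rw [hP, if_neg hv, zero_mul]

/-- the stationary random graph -/
noncomputable def S0 (s : ℕ) [Fact (2 ≤ s)] : StationaryRandomGraph ℕ (Vert s) where
  μ := (pm s).toMeasure
  prob := inferInstance
  Γ := fun _ => G0
  ρ := base
  meas_wt := fun v w => measurable_const
  meas_root := fun v => MeasurableSet.of_discrete
  stationary := by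
    classical
    intro A hA _
    set A' : Set (Vert s) := {v | (G0, v) ∈ A} with hA'
    set a : ℕ → ℝ≥0∞ := fun x => A'.indicator 1 (base x) with ha
    have hinv : ∀ v, A'.indicator 1 v = a (ht v) := by
      intro v
      have h := hA G0 v G0 (base (ht v)) (rootedIso_of_ht_eq v (base (ht v)) rfl)
      have hav : a (ht v) = A'.indicator 1 (base (ht v)) := rfl
      rw [hav]
      by_cases hv : v ∈ A'
      · have hv' : base (ht v) ∈ A' := h.1 hv
        rw [Set.indicator_of_mem hv, Set.indicator_of_mem hv']; rfl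
      · have hv' : base (ht v) ∉ A' := fun h' => hv (h.2 h')
        rw [Set.indicator_of_notMem hv, Set.indicator_of_notMem hv']
    have hL : (pm s).toMeasure {x | (G0, base x) ∈ A} = ∑' x, pm s x * a x := by
      rw [PMF.toMeasure_apply _ MeasurableSet.of_discrete]
      refine tsum_congr fun x => ?_
      have hax : a x = A'.indicator 1 (base x) := rfl
      rw [hax]
      by_cases hx : base x ∈ A'
      · have hx' : x ∈ {x | (G0, base x) ∈ A} := hx
        rw [Set.indicator_of_mem hx', Set.indicator_of_mem hx]; simp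
      · have hx' : x ∉ {x | (G0, base x) ∈ A} := hx
        rw [Set.indicator_of_notMem hx', Set.indicator_of_notMem hx]; simp
    have hR : ∫⁻ x, ∑' v, ENNReal.ofReal (G0.P (base x : Vert s) v) * A'.indicator 1 v ∂(pm s).toMeasure =
        ∑' x, (∑' v, ENNReal.ofReal (G0.P (base x : Vert s) v) * A'.indicator 1 v) * pm s x := by
      rw [lintegral_countable']
      refine tsum_congr fun x => ?_
      rw [PMF.toMeasure_apply_singleton _ _ MeasurableSet.of_discrete]
    rw [hL]
    change _ = ∫⁻ x, ∑' v, ENNReal.ofReal (G0.P (base x : Vert s) v) * A'.indicator 1 v ∂(pm s).toMeasure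
    rw [hR]
    have h1 : ∀ x, pm s x * a x = (fw s x * a x) * (∑' x, fw s x)⁻¹ := by
      intro x
      unfold pm
      rw [PMF.normalize_apply]; ring
    have h2 : ∀ x, (∑' v, ENNReal.ofReal (G0.P (base x : Vert s) v) * A'.indicator 1 v) * pm s x =
        (kap s x * upc s x * a (x + 1) + kap s x * downc s x * a (x - 1)) * (∑' x, fw s x)⁻¹ := by
      intro x
      rw [inner_sum A' a hinv]
      unfold pm
      rw [PMF.normalize_apply, ← mul_assoc]
      congr 1
      unfold fw
      have hd0 : ((upc s x : ℝ≥0∞) + (downc s x : ℝ≥0∞)) ≠ 0 := by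
        have := upc_pos (s := s) x
        intro h
        have h' : ((upc s x + downc s x : ℕ) : ℝ≥0∞) = 0 := by push_cast; exact h
        have : upc s x + downc s x = 0 := by exact_mod_cast h'
        omega
      have hdt : ((upc s x : ℝ≥0∞) + (downc s x : ℝ≥0∞)) ≠ ∞ := by
        exact_mod_cast ENNReal.natCast_ne_top (upc s x + downc s x)
      rw [div_eq_mul_inv, mul_comm (kap s x), mul_assoc, ← mul_assoc _ _ (kap s x),
        ENNReal.inv_mul_cancel hd0 hdt, one_mul]
      ring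
    rw [tsum_congr h1, tsum_congr h2, ENNReal.tsum_mul_right, ENNReal.tsum_mul_right, balance]

end Pool.Agent.Y423.HD
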